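import Pool.Agent.H5.FR2.Stmts

/-!
# Project URB: CHN, from chains to orderings
-/

set_option autoImplicit false

namespace Pool.Agent.H5.FR2

open Finset Pool.Agent.H5.FR Pool.Agent.H80

private lemma chn_list {d : ℕ} (x : Fin d → ℝ) (C : ℝ) (F : Finset (Finset (Fin d)))
    {X Y : Finset (Fin d)} (h : RReach x 0 C F X Y) (hX : X = ∅) :
    ∃ L : List (Fin d), L.Nodup ∧ L.toFinset = Y ∧ ∀ t, t ≤ L.length →
      (L.take t).toFinset ∈ F ∧ |∑ i ∈ (L.take t).toFinset, x i| ≤ C := by
  induction h with
  | refl h hb =>
    subst hX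
    refine ⟨[], List.nodup_nil, rfl, ?_⟩
    intro t ht
    have ht0 : t = 0 := by simpa using ht
    subst ht0
    simp only [List.take_nil, List.toFinset_nil]
    refine ⟨h, ?_⟩
    rw [zero_add] at hb
    exact hb
  | @step Y v h hv hF hb ih =>
    obtain ⟨L, hL1, hL2, hL3⟩ := ih
    have hvL : v ∉ L := by
      intro hm
      apply hv
      rw [← hL2]
      exact List.mem_toFinset.2 hm
    have htot : (L ++ [v]).toFinset = insert v Y := by
      ext a
      simp only [List.mem_toFinset, List.mem_append, List.mem_singleton, Finset.mem_insert, ← hL2]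
      tauto
    refine ⟨L ++ [v], ?_, htot, ?_⟩
    · rw [List.nodup_append]
      refine ⟨hL1, by simp, ?_⟩
      intro a ha b hb' hab
      simp only [List.mem_singleton] at hb'
      subst hb'
      subst hab
      exact hvL ha
    · intro t ht
      rw [List.length_append, List.length_singleton] at ht
      rcases Nat.lt_or_ge L.length t with h1 | h1
      · have ht' : (L ++ [v]).take t = L ++ [v] := by
          apply List.take_of_length_le
          rw [List.length_append, List.length_singleton]
          omega
        rw [ht', htot]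
        rw [zero_add] at hb
        exact ⟨hF, hb⟩
      · rw [List.take_append_of_le_length h1]
        exact hL3 t h1

theorem chn_thm : CHNStmt := by
  intro d x C F h
  obtain ⟨L, hL1, hL2, hL3⟩ := chn_list x C F h rfl
  have hmem : ∀ a : Fin d, a ∈ L := by
    intro a
    rw [← List.mem_toFinset, hL2]
    exact Finset.mem_univ a
  have hlen : L.length = d := by
    have h1 := List.toFinset_card_of_nodup hL1
    rw [hL2, Finset.card_univ, Fintype.card_fin] at h1
    exact h1.symm
  let e : Fin L.length ≃ Fin d := hL1.getEquivOfForallMemList L hmem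
  have he : ∀ i : Fin L.length, e i = L[(i : ℕ)] := fun i => rfl
  let σ : Equiv.Perm (Fin d) := (finCongr hlen.symm).trans e
  have hpre : ∀ t, pre σ t = (L.take t).toFinset := by
    intro t
    ext a
    unfold pre
    rw [Finset.mem_filter, List.mem_toFinset, List.mem_take_iff_getElem]
    have hs : ((σ.symm a : Fin d) : ℕ) = ((e.symm a : Fin L.length) : ℕ) := rfl
    rw [hs]
    constructor
    · rintro ⟨-, hlt⟩
      refine ⟨(e.symm a : ℕ), lt_min hlt (e.symm a).isLt, ?_⟩
      rw [← he (e.symm a), e.apply_symm_apply]
    · rintro ⟨i, hi, hia⟩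
      refine ⟨Finset.mem_univ _, ?_⟩
      have hi' : i < L.length := lt_of_lt_of_le hi (min_le_right _ _)
      have h1 : e ⟨i, hi'⟩ = a := by
        rw [he]
        exact hia
      rw [← h1, e.symm_apply_apply]
      exact lt_of_lt_of_le hi (min_le_left _ _)
  refine ⟨σ, fun t ht => ?_⟩
  rw [hpre]
  exact hL3 t (by omega)

end Pool.Agent.H5.FR2
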